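import Pool.Agent.Y564.SU.Main

open Cardinal Ordinal Set

universe u

namespace Pool.Agent.Results.MP_2e9b9b_lc.NegativeSteppingUp

/-- The partition relation `κ → (η_k; k ∈ Γ)^m`: for every colouring `c` of the `m`-element subsets
of `κ` with colours in `Γ` there are a colour `k` and a subset `H` of `κ` of order type `η k` all of
whose `m`-element subsets have colour `k`. -/
def Arrow (κ : Cardinal.{u}) {Γ : Type u} (η : Γ → Ordinal.{u}) (m : ℕ) : Prop :=
  ∀ c : Finset κ.ord.ToType → Γ, ∃ (k : Γ) (H : Set κ.ord.ToType),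
    Ordinal.type ((· < ·) : H → H → Prop) = η k ∧
      ∀ a : Finset κ.ord.ToType, (a : Set κ.ord.ToType) ⊆ H → a.card = m → c a = k

/-- **Theorem.** Under GCH the converse of the stepping-up lemma holds for all parameters:
if `κ ↛ (η_k; k ∈ Γ)^n`, then `2^κ ↛ (η_k ∔ 1; k ∈ Γ)^(n+1)`. -/
theorem result
    (gch : ∀ c : Cardinal.{u}, ℵ₀ ≤ c → (2 : Cardinal.{u}) ^ c = Order.succ c)
    (κ : Cardinal.{u}) (hκ : ℵ₀ ≤ κ) (n : ℕ) (Γ : Type u) [Nonempty Γ]
    (η : Γ → Cardinal.{u}) (h : ¬ Arrow κ (fun k => (η k).ord) n) :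
    ¬ Arrow ((2 : Cardinal.{u}) ^ κ) (fun k => (η k).ord + 1) (n + 1) := by
  rw [gch κ hκ]
  have h1 := Pool.Agent.Y564.SU.step κ hκ n Γ inferInstance η h
  have h2 : (fun k => Order.succ (η k).ord) = fun k => (η k).ord + 1 := by
    funext k
    exact Order.succ_eq_add_one _
  rw [h2] at h1
  exact h1

end Pool.Agent.Results.MP_2e9b9b_lc.NegativeSteppingUp
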